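import Pool.Agent.QUD.StmtsRB

set_option autoImplicit false

namespace Pool.Agent.QUD.H72

open MeasureTheory Complex Filter Topology Pool.Agent.H16Iso Pool.Agent.H62T
open Pool.Agent.AEU
open Pool.Agent.H1Gen (det CCW poly)

/-- the vertices in coordinates -/
theorem wq_eq (g p0 p1 q0 q1 : ℝ) : wq g p0 p1 q0 q1 =
    ![(⟨p0 * Real.cos (g / 2), p0 * Real.sin (g / 2)⟩ : ℂ),
      ⟨p1 * Real.cos (g / 2), -(p1 * Real.sin (g / 2))⟩,
      ⟨q1 * Real.cos (g / 2), -(q1 * Real.sin (g / 2))⟩,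
      ⟨q0 * Real.cos (g / 2), q0 * Real.sin (g / 2)⟩] := by
  have h1 : ∀ r : ℝ, (r : ℂ) * exp ((g / 2 : ℝ) * I) =
      ⟨r * Real.cos (g / 2), r * Real.sin (g / 2)⟩ := by
    intro r
    apply Complex.ext
    · rw [re_ofReal_mul, exp_ofReal_mul_I_re]
    · rw [im_ofReal_mul, exp_ofReal_mul_I_im]
  have h2 : ∀ r : ℝ, (r : ℂ) * exp (-((g / 2 : ℝ) * I)) =
      ⟨r * Real.cos (g / 2), -(r * Real.sin (g / 2))⟩ := by
    intro r
    have h3 : (-((g / 2 : ℝ) * I) : ℂ) = ((-(g / 2) : ℝ) : ℂ) * I := by push_cast; ring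
    rw [h3]
    apply Complex.ext
    · rw [re_ofReal_mul, exp_ofReal_mul_I_re, Real.cos_neg]
    · rw [im_ofReal_mul, exp_ofReal_mul_I_im, Real.sin_neg, mul_neg]
  rw [wq, h1, h2, h2, h1]

theorem poly_bdd (z : Fin 4 → ℂ) : Bornology.IsBounded (poly z) := by
  apply Bornology.IsBounded.subset _ interior_subset
  rw [isBounded_convexHull]
  exact (Set.finite_range z).isBounded

theorem rfI (x : ℂ) : rf I 0 x = ⟨x.re, -x.im⟩ := by
  rw [rf, ip]
  apply Complex.ext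
  · simp
  · simp
    ring

theorem polyW (hhpl : HplStmt) (g p0 p1 q0 q1 : ℝ) (h00 : p0 < q0) (h11 : p1 < q1)
    (hz : CCW (wq g p0 p1 q0 q1)) :
    poly (wq g p0 p1 q0 q1) =
      {x | (0 < Real.cos (g / 2) * x.im + Real.sin (g / 2) * x.re ∧
          0 < Real.sin (g / 2) * x.re - Real.cos (g / 2) * x.im) ∧
        -(p1 * (Real.cos (g / 2) * x.im + Real.sin (g / 2) * x.re)) -
          p0 * (Real.sin (g / 2) * x.re - Real.cos (g / 2) * x.im) <
          -(2 * p0 * p1 * (Real.cos (g / 2) * Real.sin (g / 2))) ∧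
        q1 * (Real.cos (g / 2) * x.im + Real.sin (g / 2) * x.re) +
          q0 * (Real.sin (g / 2) * x.re - Real.cos (g / 2) * x.im) <
          2 * q0 * q1 * (Real.cos (g / 2) * Real.sin (g / 2))} := by
  rw [hhpl _ hz, wq_eq]
  set C := Real.cos (g / 2) with hCdef
  set S := Real.sin (g / 2) with hSdef
  ext x
  have key : (∀ i : Fin 4, 0 < det
      (![(⟨p0 * C, p0 * S⟩ : ℂ), ⟨p1 * C, -(p1 * S)⟩, ⟨q1 * C, -(q1 * S)⟩, ⟨q0 * C, q0 * S⟩]
        (i + 1) -
      ![(⟨p0 * C, p0 * S⟩ : ℂ), ⟨p1 * C, -(p1 * S)⟩, ⟨q1 * C, -(q1 * S)⟩, ⟨q0 * C, q0 * S⟩] i)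
      (x - ![(⟨p0 * C, p0 * S⟩ : ℂ), ⟨p1 * C, -(p1 * S)⟩, ⟨q1 * C, -(q1 * S)⟩,
        ⟨q0 * C, q0 * S⟩] i)) ↔
      (0 < p1 * (C * x.im + S * x.re) + p0 * (S * x.re - C * x.im) - 2 * p0 * p1 * (C * S) ∧
       0 < (q1 - p1) * (C * x.im + S * x.re) ∧
       0 < 2 * q0 * q1 * (C * S) -
        (q1 * (C * x.im + S * x.re) + q0 * (S * x.re - C * x.im)) ∧
       0 < (q0 - p0) * (S * x.re - C * x.im)) := by
    have e0 : det ((⟨p1 * C, -(p1 * S)⟩ : ℂ) - ⟨p0 * C, p0 * S⟩) (x - ⟨p0 * C, p0 * S⟩) =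
        p1 * (C * x.im + S * x.re) + p0 * (S * x.re - C * x.im) - 2 * p0 * p1 * (C * S) := by
      simp only [det, sub_re, sub_im]
      ring
    have e1 : det ((⟨q1 * C, -(q1 * S)⟩ : ℂ) - ⟨p1 * C, -(p1 * S)⟩)
        (x - ⟨p1 * C, -(p1 * S)⟩) = (q1 - p1) * (C * x.im + S * x.re) := by
      simp only [det, sub_re, sub_im]
      ring
    have e2 : det ((⟨q0 * C, q0 * S⟩ : ℂ) - ⟨q1 * C, -(q1 * S)⟩)
        (x - ⟨q1 * C, -(q1 * S)⟩) = 2 * q0 * q1 * (C * S) -
        (q1 * (C * x.im + S * x.re) + q0 * (S * x.re - C * x.im)) := by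
      simp only [det, sub_re, sub_im]
      ring
    have e3 : det ((⟨p0 * C, p0 * S⟩ : ℂ) - ⟨q0 * C, q0 * S⟩)
        (x - ⟨q0 * C, q0 * S⟩) = (q0 - p0) * (S * x.re - C * x.im) := by
      simp only [det, sub_re, sub_im]
      ring
    rw [← e0, ← e1, ← e2, ← e3]
    constructor
    · intro h
      exact ⟨h 0, h 1, h 2, h 3⟩
    · rintro ⟨h0, h1, h2, h3⟩ i
      fin_cases i
      · exact h0
      · exact h1
      · exact h2
      · exact h3
  refine Iff.trans key ?_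
  have hq1 : 0 < q1 - p1 := by linarith
  have hq0 : 0 < q0 - p0 := by linarith
  rw [mul_pos_iff_of_pos_left hq1, mul_pos_iff_of_pos_left hq0]
  constructor
  · rintro ⟨h0, h1, h2, h3⟩
    exact ⟨⟨h1, h3⟩, by linarith, by linarith⟩
  · rintro ⟨⟨h1, h3⟩, h0, h2⟩
    exact ⟨by linarith, h1, by linarith, h3⟩

theorem fxw (hcgr : CgrStmt) (hpcg : PcgStmt) (hwfo : WfoStmt) (hhpl : HplStmt)
    (hflf : FlfStmt) : FxwStmt := by
  intro g p0 p1 q0 q1 hg hgp hp0 hp1 h00 h11 h01 h10 hspec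
  by_cases hq : q0 = q1
  · subst hq
    exact hcgr.1 _
  by_cases hp : p0 = p1
  · subst hp
    apply hpcg _ _ Complex.conjLIE.toIsometryEquiv
    have hc : ∀ x : ℂ, Complex.conjLIE.toIsometryEquiv x = ⟨x.re, -x.im⟩ := by
      intro x
      rfl
    rw [wq_eq, wq_eq]
    simp only [Matrix.range_cons, Matrix.range_empty, Set.union_empty, Set.image_union,
      Set.image_singleton, hc, neg_neg]
    ext y
    simp only [Set.mem_union, Set.mem_singleton_iff]
    tauto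
  exfalso
  have hC : 0 < Real.cos (g / 2) := Real.cos_pos_of_mem_Ioo ⟨by linarith, by linarith⟩
  have hS : 0 < Real.sin (g / 2) := Real.sin_pos_of_pos_of_lt_pi (by linarith) (by linarith)
  have hq0 : 0 < q0 := by linarith
  have hq1 : 0 < q1 := by linarith
  obtain ⟨hz, -⟩ := hwfo g p0 p1 q0 q1 hg hgp hp0 hp1 h00 h11
  obtain ⟨hz', -⟩ := hwfo g p0 p1 q1 q0 hg hgp hp0 hp1 h01 h10
  set C := Real.cos (g / 2) with hCdef
  set S := Real.sin (g / 2) with hSdef
  let W : Set ℂ := {x | 0 < C * x.im + S * x.re ∧ 0 < S * x.re - C * x.im}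
  let u : ℂ := ⟨-((p0 + p1) * S), (p0 - p1) * C⟩
  let v : ℂ := ⟨(q0 + q1) * S, (q1 - q0) * C⟩
  have hD : 0 < C * S := mul_pos hC hS
  have hu : ∀ x : ℂ, ip u x = -(p1 * (C * x.im + S * x.re)) - p0 * (S * x.re - C * x.im) := by
    intro x
    simp only [ip, u]
    ring
  have hv : ∀ x : ℂ, ip v x = q1 * (C * x.im + S * x.re) + q0 * (S * x.re - C * x.im) := by
    intro x
    simp only [ip, v]
    ring
  have hv' : ∀ x : ℂ, ip v (rf I 0 x) =
      q1 * (S * x.re - C * x.im) + q0 * (C * x.im + S * x.re) := by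
    intro x
    rw [hv, rfI]
    ring
  -- the two sets
  have hset : poly (wq g p0 p1 q0 q1) =
      {x | x ∈ W ∧ ip u x < -(2 * p0 * p1 * (C * S)) ∧ ip v x < 2 * q0 * q1 * (C * S)} := by
    rw [polyW hhpl g p0 p1 q0 q1 h00 h11 hz]
    ext x
    refine Iff.trans ?_ (Iff.refl (x ∈ W ∧ ip u x < -(2 * p0 * p1 * (C * S)) ∧
      ip v x < 2 * q0 * q1 * (C * S)))
    rw [hu, hv]
    exact Iff.rfl
  have hset' : poly (wq g p0 p1 q1 q0) =
      {x | x ∈ W ∧ ip u x < -(2 * p0 * p1 * (C * S)) ∧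
        ip v (rf I 0 x) < 2 * q0 * q1 * (C * S)} := by
    rw [polyW hhpl g p0 p1 q1 q0 h01 h10 hz']
    ext x
    refine Iff.trans ?_ (Iff.refl (x ∈ W ∧ ip u x < -(2 * p0 * p1 * (C * S)) ∧
      ip v (rf I 0 x) < 2 * q0 * q1 * (C * S)))
    rw [hu, hv', show 2 * q0 * q1 * (C * S) = 2 * q1 * q0 * (C * S) by ring,
      add_comm (q1 * (S * x.re - C * x.im))]
    exact Iff.rfl
  -- the covering inequalities
  have hcov : ∀ A B : ℝ, 0 < A → 0 < B → 2 * p0 * p1 * (C * S) ≥ p1 * A + p0 * B →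
      ∀ r0 r1 : ℝ, p0 < r0 → p1 < r1 → r1 * A + r0 * B < 2 * r0 * r1 * (C * S) := by
    intro A B hA hB h r0 r1 h0 h1
    have hr0 : 0 < r0 := by linarith
    have hr1 : 0 < r1 := by linarith
    have k1 : A / p0 + B / p1 ≤ 2 * (C * S) := by
      rw [div_add_div _ _ hp0.ne' hp1.ne', div_le_iff₀ (mul_pos hp0 hp1)]
      nlinarith
    have k2 : A / r0 < A / p0 := div_lt_div_of_pos_left hA hp0 h0
    have k3 : B / r1 < B / p1 := div_lt_div_of_pos_left hB hp1 h1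
    have k4 : A / r0 + B / r1 < 2 * (C * S) := by linarith
    rw [div_add_div _ _ hr0.ne' hr1.ne', div_lt_iff₀ (mul_pos hr0 hr1)] at k4
    nlinarith
  have hWopen : IsOpen W := by
    have c1 : Continuous fun x : ℂ => C * x.im + S * x.re := by fun_prop
    have c2 : Continuous fun x : ℂ => S * x.re - C * x.im := by fun_prop
    exact (isOpen_lt continuous_const c1).inter (isOpen_lt continuous_const c2)
  have hWconv : Convex ℝ W := by
    intro x hx y hy a b ha hb hab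
    obtain ⟨hx1, hx2⟩ := hx
    obtain ⟨hy1, hy2⟩ := hy
    have hre : (a • x + b • y).re = a * x.re + b * y.re := by simp
    have him : (a • x + b • y).im = a * x.im + b * y.im := by simp
    have hpos : ∀ r s : ℝ, 0 < r → 0 < s → 0 < a * r + b * s := by
      intro r s hr hs
      rcases ha.eq_or_lt with h | h
      · have hb1 : b = 1 := by linarith
        rw [← h, hb1]
        linarith
      · have h1 : 0 < a * r := mul_pos h hr
        have h2 : 0 ≤ b * s := mul_nonneg hb hs.le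
        linarith
    constructor
    · rw [hre, him]
      have := hpos _ _ hx1 hy1
      linarith
    · rw [hre, him]
      have := hpos _ _ hx2 hy2
      linarith
  have hWrf : ∀ x ∈ W, rf I 0 x ∈ W := by
    rintro x ⟨h1, h2⟩
    rw [rfI]
    constructor
    · show 0 < C * -x.im + S * x.re
      linarith
    · show 0 < S * x.re - C * -x.im
      linarith
  have hpu : ip u I ≠ 0 := by
    have : ip u I = (p0 - p1) * C := by simp [ip, u]
    rw [this]
    exact mul_ne_zero (sub_ne_zero.2 hp) hC.ne'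
  have hpv : ip v I ≠ 0 := by
    have : ip v I = (q1 - q0) * C := by simp [ip, v]
    rw [this]
    exact mul_ne_zero (sub_ne_zero.2 (Ne.symm hq)) hC.ne'
  refine hflf I 0 W u v (-(2 * p0 * p1 * (C * S))) (2 * q0 * q1 * (C * S)) (by simp) hWopen
    hWconv hWrf hpu hpv ?_ ?_ ?_ ?_ ?_ ?_ ?_
  · rintro x ⟨h1, h2⟩
    by_contra hcon
    rw [not_or, not_lt, not_lt, hu, hv] at hcon
    have := hcov _ _ h1 h2 (by linarith [hcon.1]) q0 q1 h00 h11
    linarith [hcon.2]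
  · rintro x ⟨h1, h2⟩
    by_contra hcon
    rw [not_or, not_lt, not_lt, hu, hv'] at hcon
    have := hcov _ _ h1 h2 (by linarith [hcon.1]) q1 q0 h01 h10
    linarith [hcon.2]
  · refine ⟨⟨(p0 + p1) / 2 * C, (p0 - p1) / 2 * S⟩, ⟨?_, ?_⟩, ?_⟩
    · show 0 < C * ((p0 - p1) / 2 * S) + S * ((p0 + p1) / 2 * C)
      have : 0 < p0 * (C * S) := mul_pos hp0 hD
      nlinarith
    · show 0 < S * ((p0 + p1) / 2 * C) - C * ((p0 - p1) / 2 * S)
      have : 0 < p1 * (C * S) := mul_pos hp1 hD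
      nlinarith
    · rw [hu]
      show -(p1 * (C * ((p0 - p1) / 2 * S) + S * ((p0 + p1) / 2 * C))) -
        p0 * (S * ((p0 + p1) / 2 * C) - C * ((p0 - p1) / 2 * S)) = _
      ring
  · refine ⟨⟨(q0 + q1) / 2 * C, (q0 - q1) / 2 * S⟩, ⟨?_, ?_⟩, ?_⟩
    · show 0 < C * ((q0 - q1) / 2 * S) + S * ((q0 + q1) / 2 * C)
      have : 0 < q0 * (C * S) := mul_pos hq0 hD
      nlinarith
    · show 0 < S * ((q0 + q1) / 2 * C) - C * ((q0 - q1) / 2 * S)
      have : 0 < q1 * (C * S) := mul_pos hq1 hD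
      nlinarith
    · rw [hv]
      show q1 * (C * ((q0 - q1) / 2 * S) + S * ((q0 + q1) / 2 * C)) +
        q0 * (S * ((q0 + q1) / 2 * C) - C * ((q0 - q1) / 2 * S)) = _
      ring
  · rw [← hset]
    exact poly_bdd _
  · rw [← hset']
    exact poly_bdd _
  · rw [← hset, ← hset']
    exact hspec

end Pool.Agent.QUD.H72
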